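import Pool.Agent.helper83.ORE.SpecDE

/-! Row EN5 of helper83's plan ORE, part E (MP_561ff4_al): order divisible by five. -/

set_option autoImplicit false

namespace Pool.Agent.ORE

open Module Pool.Agent.GS

theorem EN5 : EN5_stmt := by
  intro F V _ _ _ Q h2 hNd z hz v hv hrel j c hc
  -- a nonsingular vector
  obtain ⟨w, hw⟩ : ∃ w, Q w ≠ 0 := by
    by_contra hcon
    push Not at hcon
    apply hv
    apply hNd v
    intro y
    have h := Q_add Q v y
    rw [hcon, hcon, hcon] at h
    linear_combination -h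
  -- the scalar is 1
  have hzj : z ^ j ∈ OQ Q := (OQ Q).pow_mem hz j
  have hc1 : c = 1 := by
    have h1 := hzj.2 w
    rw [hc w, Q_smul] at h1
    have h3 : (c ^ 2 - 1) * Q w = 0 := by linear_combination h1
    have h4 : c ^ 2 - 1 = 0 := (mul_eq_zero.1 h3).resolve_right hw
    have h5 : (c - 1) ^ 2 = 0 := by linear_combination h4 - (c - 1) * h2
    exact sub_eq_zero.1 (pow_eq_zero_iff (two_ne_zero)|>.1 h5)
  have hzv : (z ^ j) v = v := by rw [hc v, hc1, one_smul]
  -- the fifth power
  have hadd := hz.1.1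
  have hz0 : z 0 = 0 := by
    have h := hz.1.2 0 0
    rwa [zero_smul, zero_smul] at h
  have hz5 : z (z (z (z (z v)))) = v := by
    have h := congrArg z hrel
    rw [hadd, hadd, hadd, hadd, hz0] at h
    have h6 : z (z (z (z (z v)))) - v =
        (z (z (z (z (z v)))) + z (z (z (z v))) + z (z (z v)) + z (z v) + z v) -
          (z (z (z (z v))) + z (z (z v)) + z (z v) + z v + v) := by abel
    rw [h, hrel, sub_zero] at h6
    exact sub_eq_zero.1 h6
  by_contra hnd
  have hp5 : Function.IsPeriodicPt z 5 v := hz5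
  have hpj : Function.IsPeriodicPt z j v := by
    change (⇑z)^[j] v = v
    rw [Equiv.Perm.iterate_eq_pow]
    exact hzv
  have hg := hp5.gcd hpj
  have hco : Nat.gcd 5 j = 1 := (Nat.Prime.coprime_iff_not_dvd Nat.prime_five).2 hnd
  rw [hco] at hg
  have hz1 : z v = v := hg
  rw [hz1, hz1, hz1, hz1] at hrel
  apply hv
  have h7 : (2 : F) • v + (2 : F) • v + v = 0 := by
    rw [two_smul]
    rw [← hrel]
    abel
  rw [h2, zero_smul, zero_add, zero_add] at h7
  exact h7

end Pool.Agent.ORE
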