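import Pool.Agent.helper53.ORE.Spec

/-! Row FER of helper53's plan ORE (MP_561ff4_al). -/

set_option autoImplicit false

namespace Pool.Agent.ORE

open Module Pool.Agent.GS

/-- the cardinality of a finite field of characteristic two -/
theorem FER_card {F : Type} [Field F] [Finite F] (h2 : (2 : F) = 0) :
    ∃ s : ℕ, Nat.card F = 2 ^ s := by
  have := charP2 h2
  have := Fintype.ofFinite F
  obtain ⟨n, _, hn⟩ := FiniteField.card F 2
  exact ⟨n, by rw [Nat.card_eq_fintype_card]; exact hn⟩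

/-- Fermat -/
theorem FER_fermat (r q : ℕ) (hr : r.Prime) (hq : ¬ r ∣ q) : r ∣ q ^ (r - 1) - 1 := by
  have hc : Nat.Coprime q r := Nat.Coprime.symm ((Nat.Prime.coprime_iff_not_dvd hr).2 hq)
  have h := Nat.ModEq.pow_totient hc
  rw [Nat.totient_prime hr] at h
  exact (Nat.modEq_iff_dvd' (Nat.one_le_pow _ _ (Nat.pos_of_ne_zero (by
    rintro rfl
    exact hq (dvd_zero r))))).1 h.symm

/-- arithmetic -/
theorem FER_arith (m r s a : ℕ) (hr : r.Prime) (hr2 : r ≠ 2) (hm : m = 2 ^ a) (ha : 1 ≤ a)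
    (hd : ∀ i : ℕ, r ∣ (2 ^ s) ^ (2 * i) - 1 ↔ m ∣ i) : r = 5 ∨ 4 * m + 1 ≤ r := by
  have hr3 : 3 ≤ r := by
    have := hr.two_le
    omega
  have hodd : r % 2 = 1 := by
    rcases hr.eq_two_or_odd with h | h
    · exact absurd h hr2
    · exact h
  have hnd : ¬ r ∣ 2 ^ s := by
    intro h
    have h1 := hr.dvd_of_dvd_pow h
    exact hr2 ((Nat.prime_dvd_prime_iff_eq hr Nat.prime_two).1 h1)
  obtain ⟨i, hi⟩ : ∃ i, r - 1 = 2 * i := ⟨(r - 1) / 2, by omega⟩
  have h1 := FER_fermat r (2 ^ s) hr hnd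
  rw [hi] at h1
  obtain ⟨t, ht⟩ := (hd i).1 h1
  have hmpos : 1 ≤ m := by rw [hm]; exact Nat.one_le_two_pow
  have ht1 : 1 ≤ t := by
    rcases Nat.eq_zero_or_pos t with h | h
    · rw [h, Nat.mul_zero] at ht
      omega
    · exact h
  by_cases ht2 : 2 ≤ t
  · right
    have h2 : m * 2 ≤ m * t := Nat.mul_le_mul_left _ ht2
    omega
  · left
    have ht3 : t = 1 := by omega
    rw [ht3, Nat.mul_one] at ht
    have hrm : r = 2 ^ (a + 1) + 1 := by
      rw [pow_succ, ← hm]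
      omega
    have hsq : r ∣ 2 ^ (2 * (a + 1)) - 1 := by
      have h3 : 2 ^ (2 * (a + 1)) - 1 = (2 ^ (a + 1) + 1) * (2 ^ (a + 1) - 1) := by
        have h4 := Nat.sq_sub_sq (2 ^ (a + 1)) 1
        rw [one_pow] at h4
        rw [← h4, ← pow_mul, Nat.mul_comm]
      rw [h3, ← hrm]
      exact dvd_mul_right _ _
    have hs : r ∣ (2 ^ s) ^ (2 * (a + 1)) - 1 := by
      have h5 : (2 ^ s) ^ (2 * (a + 1)) = (2 ^ (2 * (a + 1))) ^ s := by
        rw [← pow_mul, ← pow_mul, Nat.mul_comm]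
      rw [h5]
      have h6 := Nat.sub_dvd_pow_sub_pow (2 ^ (2 * (a + 1))) 1 s
      rw [one_pow] at h6
      exact hsq.trans h6
    have h7 := Nat.le_of_dvd (Nat.succ_pos a) ((hd (a + 1)).1 hs)
    have ha1 : a = 1 := by
      by_contra hne
      have ha2 : 2 ≤ a := by omega
      have h8 : ∀ b : ℕ, 2 ≤ b → b + 2 ≤ 2 ^ b := by
        intro b hb
        induction b, hb using Nat.le_induction with
        | base => norm_num
        | succ b hb ih =>
          rw [pow_succ]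
          omega
      have h9 := h8 a ha2
      rw [hm] at h7
      omega
    rw [hrm, ha1]
    norm_num

theorem FER (od : ORD_stmt) : FER_stmt := by
  intro F V K _ _ _ _ _ _ _ _ Q h2 k hk σ j hD r hr hr2 hkr a ha hm
  obtain ⟨s, hs⟩ := FER_card h2
  refine FER_arith (finrank F K) r s a hr hr2 hm ha ?_
  intro i
  rw [← hs]
  exact od Q h2 k hk σ j hD r hr hr2 hkr i

end Pool.Agent.ORE
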